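import Pool.Agent.H44.HC.Targets

/-! Euler circuits (module EUL of MP_959f6e_co). -/

set_option autoImplicit false

namespace Pool.Agent.H14.HC.Eul

open Finset Pool.Agent.H44.HC

variable {ι B : Type} [DecidableEq ι] [DecidableEq B] (a b : ι → B)

/-- number of ends of the edge `e` at `w` -/
def cnt (w : B) (e : ι) : ℕ := (if a e = w then 1 else 0) + (if b e = w then 1 else 0)

theorem ends_eq (T : Finset ι) (w : B) : ends a b T w = ∑ e ∈ T, cnt a b w e := by
  unfold ends cnt
  rw [Finset.sum_add_distrib, Finset.card_filter, Finset.card_filter]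

theorem cnt_dir (w : B) (d : ι × Bool) :
    cnt a b w d.1 = (if src a b d = w then 1 else 0) + (if tgt a b d = w then 1 else 0) := by
  obtain ⟨e, c⟩ := d
  cases c
  · simp [cnt, src, tgt, add_comm]
  · simp [cnt, src, tgt]

theorem parity (w : B) : ∀ (L : List (ι × Bool)) (d : ι × Bool),
    (d :: L).IsChain (fun d d' => tgt a b d = src a b d') →
    ∀ d', (d :: L).getLast? = some d' →
    Even ((((d :: L).map Prod.fst).map (cnt a b w)).sum + (if src a b d = w then 1 else 0)
      + (if tgt a b d' = w then 1 else 0)) := by
  intro L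
  induction L with
  | nil =>
    intro d _ d' hd'
    simp only [List.getLast?_singleton, Option.some.injEq] at hd'
    subst hd'
    simp only [List.map_cons, List.map_nil, List.sum_cons, List.sum_nil, add_zero]
    rw [cnt_dir]
    set x := (if src a b d = w then 1 else 0)
    set y := (if tgt a b d = w then 1 else 0)
    exact ⟨x + y, by ring⟩
  | cons c L ih =>
    intro d hch d' hd'
    have h1 : tgt a b d = src a b c := (List.isChain_cons_cons.1 hch).1
    have h2 := (List.isChain_cons_cons.1 hch).2
    have h3 : (c :: L).getLast? = some d' := by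
      rw [List.getLast?_cons_cons] at hd'
      exact hd'
    have h4 := ih c h2 d' h3
    rw [List.map_cons, List.map_cons, List.sum_cons]
    rw [cnt_dir, h1]
    set S := (((c :: L).map Prod.fst).map (cnt a b w)).sum
    set x := (if src a b d = w then 1 else 0)
    set y := (if src a b c = w then 1 else 0)
    set z := (if tgt a b d' = w then 1 else 0)
    obtain ⟨k, hk⟩ := h4
    exact ⟨k + x, by omega⟩

/-- trails -/
def Tr (E : Finset ι) (L : List (ι × Bool)) : Prop :=
  (L.map Prod.fst).Nodup ∧ (∀ e ∈ L.map Prod.fst, e ∈ E) ∧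
    L.IsChain (fun d d' => tgt a b d = src a b d')

omit [DecidableEq B] in
theorem Tr.length_le {E : Finset ι} {L : List (ι × Bool)} (h : Tr a b E L) : L.length ≤ E.card := by
  have h1 : (L.map Prod.fst).toFinset ⊆ E := by
    intro e he
    exact h.2.1 e (List.mem_toFinset.1 he)
  have h2 := Finset.card_le_card h1
  rw [List.toFinset_card_of_nodup h.1, List.length_map] at h2
  exact h2

omit [DecidableEq B] in
theorem exists_max (E : Finset ι) (hE : E.Nonempty) :
    ∃ L : List (ι × Bool), Tr a b E L ∧ L ≠ [] ∧ ∀ L', Tr a b E L' → L'.length ≤ L.length := by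
  classical
  obtain ⟨e, he⟩ := hE
  have h0 : Tr a b E [(e, true)] := by
    refine ⟨by simp, ?_, by simp⟩
    intro e' he'
    simp only [List.map_cons, List.map_nil, List.mem_singleton] at he'
    rw [he']
    exact he
  let P : ℕ → Prop := fun n => ∃ L, Tr a b E L ∧ L.length = n
  have hP1 : P 1 := ⟨_, h0, rfl⟩
  have hle : 1 ≤ E.card := Finset.card_pos.2 ⟨e, he⟩
  have hsp := Nat.findGreatest_spec hle hP1
  obtain ⟨L, hL, hlen⟩ := hsp
  have hone : 1 ≤ Nat.findGreatest P E.card := Nat.le_findGreatest hle hP1
  refine ⟨L, hL, ?_, ?_⟩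
  · intro h
    rw [h] at hlen
    simp only [List.length_nil] at hlen
    omega
  · intro L' hL'
    rw [hlen]
    exact Nat.le_findGreatest hL'.length_le ⟨L', hL', rfl⟩

omit [DecidableEq B] in
/-- an unused edge with an end at `w` as a directed edge with source `w` -/
theorem exists_dir (e : ι) (w : B) (h : a e = w ∨ b e = w) : ∃ c : Bool, src a b (e, c) = w := by
  rcases h with h | h
  · exact ⟨true, by simpa [src] using h⟩
  · exact ⟨false, by simpa [src] using h⟩

theorem closed (E : Finset ι) (hev : ∀ v : B, Even (ends a b E v)) (L : List (ι × Bool))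
    (hL : Tr a b E L) (hmax : ∀ L', Tr a b E L' → L'.length ≤ L.length) (d d' : ι × Bool)
    (hd : L.head? = some d) (hd' : L.getLast? = some d') : tgt a b d' = src a b d := by
  by_contra hne
  obtain ⟨L0, rfl⟩ : ∃ L0, L = d :: L0 := by
    cases L with
    | nil => simp at hd
    | cons x L0 =>
      simp only [List.head?_cons, Option.some.injEq] at hd
      exact ⟨L0, by rw [hd]⟩
  set v := tgt a b d' with hv
  have hp := parity a b v L0 d hL.2.2 d' hd'
  rw [if_neg (fun h => hne h.symm), if_pos hv.symm, add_zero] at hp
  set S : Finset ι := ((d :: L0).map Prod.fst).toFinset with hS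
  have hSE : S ⊆ E := by
    intro e he
    exact hL.2.1 e (List.mem_toFinset.1 he)
  have h1 : ends a b S v = (((d :: L0).map Prod.fst).map (cnt a b v)).sum := by
    rw [ends_eq, hS, List.sum_toFinset _ hL.1]
  have h2 : ends a b E v = ends a b (E \ S) v + ends a b S v := by
    rw [ends_eq, ends_eq, ends_eq, Finset.sum_sdiff hSE]
  have h3 : ends a b (E \ S) v ≠ 0 := by
    intro h0
    have he := hev v
    rw [h2, h0, zero_add, h1] at he
    exact (Nat.even_add_one.1 hp) he
  rw [ends_eq] at h3
  obtain ⟨e, heE, he0⟩ := Finset.exists_ne_zero_of_sum_ne_zero h3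
  have hend : a e = v ∨ b e = v := by
    by_contra hcon
    push Not at hcon
    apply he0
    simp [cnt, hcon.1, hcon.2]
  obtain ⟨c, hc⟩ := exists_dir a b e v hend
  rw [Finset.mem_sdiff] at heE
  have hT : Tr a b E ((d :: L0) ++ [(e, c)]) := by
    refine ⟨?_, ?_, ?_⟩
    · rw [List.map_append, List.nodup_append]
      refine ⟨hL.1, by simp, ?_⟩
      intro x hx y hy hxy
      simp only [List.map_cons, List.map_nil, List.mem_singleton] at hy
      apply heE.2
      rw [hS, List.mem_toFinset, ← hy, ← hxy]
      exact hx
    · intro x hx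
      rw [List.map_append, List.mem_append] at hx
      rcases hx with hx | hx
      · exact hL.2.1 x hx
      · simp only [List.map_cons, List.map_nil, List.mem_singleton] at hx
        rw [hx]
        exact heE.1
    · rw [List.isChain_append]
      refine ⟨hL.2.2, by simp, ?_⟩
      intro x hx y hy
      simp only [List.head?_cons, Option.mem_def, Option.some.injEq] at hy
      rw [Option.mem_def, hd'] at hx
      rw [← hy, hc, ← Option.some.inj hx]
  have := hmax _ hT
  simp at this

theorem eul : T_EUL := by
  intro ι B _ _ a b E hE hev hconn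
  obtain ⟨L, hL, hne, hmax⟩ := exists_max a b E hE
  obtain ⟨d0, hd0⟩ : ∃ d, L.head? = some d := by
    cases L with
    | nil => exact absurd rfl hne
    | cons x L0 => exact ⟨x, rfl⟩
  obtain ⟨d1, hd1⟩ : ∃ d, L.getLast? = some d := by
    cases L with
    | nil => exact absurd rfl hne
    | cons x L0 => exact ⟨_, List.getLast?_eq_some_getLast (by simp)⟩
  have hcl := closed a b E hev L hL hmax d0 d1 hd0 hd1
  refine ⟨L, hL.1, ?_, hL.2.2, fun d d' h h' => closed a b E hev L hL hmax d d' h h'⟩
  intro e
  refine ⟨hL.2.1 e, ?_⟩
  -- all targets are sources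
  have hts : ∀ x ∈ L, ∃ y ∈ L, src a b y = tgt a b x := by
    intro x hx
    obtain ⟨L1, L2, rfl⟩ := List.append_of_mem hx
    cases L2 with
    | nil =>
      have hx1 : x = d1 := by
        rw [List.getLast?_append] at hd1
        simpa using hd1
      refine ⟨d0, List.mem_of_head? hd0, ?_⟩
      rw [hx1, hcl]
    | cons y L3 =>
      have h := hL.2.2
      rw [List.isChain_append] at h
      exact ⟨y, by simp, ((List.isChain_cons_cons.1 h.2.1).1).symm⟩
  -- otherwise a longer trail
  intro heE
  by_contra heL
  set W : Set B := {w | ∃ y ∈ L, src a b y = w} with hW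
  have hends : ∀ t ∈ L.map Prod.fst, a t ∈ W ∧ b t ∈ W := by
    intro t ht
    obtain ⟨x, hx, rfl⟩ := List.mem_map.1 ht
    have h1 : src a b x ∈ W := ⟨x, hx, rfl⟩
    have h2 : tgt a b x ∈ W := hts x hx
    obtain ⟨t, c⟩ := x
    cases c
    · simp only [src, tgt] at h1 h2
      exact ⟨by simpa using h2, by simpa using h1⟩
    · simp only [src, tgt] at h1 h2
      exact ⟨by simpa using h1, by simpa using h2⟩
  have hun : ∃ g ∈ E, g ∉ L.map Prod.fst ∧ (a g ∈ W ∨ b g ∈ W) := by
    by_contra hcon
    push Not at hcon
    have hstep : ∀ t ∈ E, (a t ∈ W ↔ b t ∈ W) := by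
      intro t ht
      constructor
      · intro h
        by_contra h'
        by_cases hm : t ∈ L.map Prod.fst
        · exact h' (hends t hm).2
        · exact (hcon t ht hm).1 h
      · intro h
        by_contra h'
        by_cases hm : t ∈ L.map Prod.fst
        · exact h' (hends t hm).1
        · exact (hcon t ht hm).2 h
    have hlink : ∀ u v, Link a b E u v → (u ∈ W ↔ v ∈ W) := by
      intro u v h
      induction h with
      | rel x y h =>
        obtain ⟨t, ht, rfl, rfl⟩ := h
        exact hstep t ht
      | refl x => exact Iff.rfl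
      | symm x y _ ih => exact ih.symm
      | trans x y z _ _ ih1 ih2 => exact ih1.trans ih2
    have hd0L : d0 ∈ L := List.mem_of_head? hd0
    have hd0m : d0.1 ∈ L.map Prod.fst := List.mem_map.2 ⟨d0, hd0L, rfl⟩
    have h1 : a d0.1 ∈ W := (hends d0.1 hd0m).1
    have h2 : a e ∈ W := (hlink _ _ (hconn d0.1 (hL.2.1 _ hd0m) e heE)).1 h1
    exact (hcon e heE heL).1 h2
  obtain ⟨g, hgE, hgL, hgW⟩ := hun
  obtain ⟨w, hwW, hgw⟩ : ∃ w, w ∈ W ∧ (a g = w ∨ b g = w) := by
    rcases hgW with h | h
    · exact ⟨_, h, Or.inl rfl⟩
    · exact ⟨_, h, Or.inr rfl⟩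
  obtain ⟨c, hc⟩ := exists_dir a b g w hgw
  obtain ⟨y, hyL, hyw⟩ := hwW
  obtain ⟨L1, L2, hsplit⟩ := List.append_of_mem hyL
  have hch := hL.2.2
  rw [hsplit, List.isChain_append] at hch
  obtain ⟨hc1, hc2, hc3⟩ := hch
  have hperm : ((y :: L2) ++ L1).Perm L := by
    rw [hsplit]
    exact List.perm_append_comm
  have hT : Tr a b E ((y :: L2) ++ (L1 ++ [(g, c)])) := by
    have hperm2 : ((y :: L2) ++ (L1 ++ [(g, c)])).Perm (L ++ [(g, c)]) := by
      rw [← List.append_assoc]
      exact hperm.append_right _
    refine ⟨?_, ?_, ?_⟩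
    · rw [(hperm2.map Prod.fst).nodup_iff, List.map_append, List.nodup_append]
      refine ⟨hL.1, by simp, ?_⟩
      intro x hx z hz hxz
      simp only [List.map_cons, List.map_nil, List.mem_singleton] at hz
      apply hgL
      rw [← hz, ← hxz]
      exact hx
    · intro x hx
      have hx2 := (hperm2.map Prod.fst).mem_iff.1 hx
      rw [List.map_append, List.mem_append] at hx2
      rcases hx2 with hx2 | hx2
      · exact hL.2.1 x hx2
      · simp only [List.map_cons, List.map_nil, List.mem_singleton] at hx2
        rw [hx2]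
        exact hgE
    · rw [List.isChain_append, List.isChain_append]
      refine ⟨hc2, ⟨hc1, by simp, ?_⟩, ?_⟩
      · intro x hx z hz
        simp only [List.head?_cons, Option.mem_def, Option.some.injEq] at hz
        rw [← hz, hc, ← hyw]
        exact hc3 x hx y (by simp)
      · intro x hx z hz
        -- x is the last element of L
        have hx1 : L.getLast? = some x := by
          rw [hsplit, List.getLast?_append]
          rw [Option.mem_def] at hx
          rw [hx]
          rfl
        have hxd : x = d1 := by
          rw [hd1] at hx1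
          exact (Option.some.inj hx1).symm
        cases L1 with
        | nil =>
          simp only [List.nil_append, List.head?_cons, Option.mem_def, Option.some.injEq] at hz
          have hy0 : y = d0 := by
            rw [hsplit] at hd0
            simpa using hd0
          rw [← hz, hc, ← hyw, hxd, hcl, hy0]
        | cons z' L1' =>
          simp only [List.cons_append, List.head?_cons, Option.mem_def, Option.some.injEq] at hz
          have hz0 : z' = d0 := by
            rw [hsplit] at hd0
            simpa using hd0
          rw [← hz, hxd, hcl, hz0]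
  have h1 := hmax _ hT
  have h2 : ((y :: L2) ++ (L1 ++ [(g, c)])).length = L.length + 1 := by
    rw [hsplit]
    simp only [List.length_append, List.length_cons, List.length_nil]
    omega
  omega

end Pool.Agent.H14.HC.Eul
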